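import Pool.Agent.Helper62.UD.Classes

/-!
# MP_c7897a_lc: labelling schemes with few errors give exact labelling schemes

For segment graphs, disk graphs and unit disk graphs, an adjacency labelling scheme of size
`O(log n)` exists if and only if there is one which is allowed to decode `O(n ^ (2 - δ))` ordered
pairs of vertices wrongly, for some `δ > 0`.  In quantitative form: with one and the same decoder,
if the graphs with `m * M` vertices have labels of length at most `L` with fewer than `M ^ 2`
wrong pairs, then the graphs with `m` vertices have labels of length at most `L` without errors.
The proof labels the graph in which every vertex is replaced by `M` copies and picks one copy of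
every vertex at random.
-/

open UDisk

/-- **Few errors or none.** -/
theorem Pool.Agent.Results.MP_c7897a_lc.FewErrors.result (C : GraphClass)
    (hC : C = SegmentGraphs ∨ C = DiskGraphs ∨ C = UnitDiskGraphs) :
    (Short C ↔ ShortApprox C) ∧
    ∀ (dec : List Bool → List Bool → Bool) (m M L : ℕ),
      (∀ G : SimpleGraph (Fin (m * M)), C (m * M) G → ∃ l : Fin (m * M) → List Bool,
        (∀ v, (l v).length ≤ L) ∧ errors dec G l < M ^ 2) →
      ∀ G : SimpleGraph (Fin m), C m G → ∃ l : Fin m → List Bool,
        (∀ v, (l v).length ≤ L) ∧ Correct dec G l := by
  have hb : BlowUp C := by
    rcases hC with rfl | rfl | rfl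
    · exact blowUp_segment
    · exact blowUp_disk
    · exact blowUp_unit
  exact ⟨⟨approx_of_short, short_of_approx hb⟩, fun dec m M L h G hG =>
    exact_of_errors hb dec m M L h G hG⟩
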