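import Pool.Agent.Helper62.UD.Colour

/-!
# MP_c7897a_lc: labels for segment graphs from proper colourings

There is one computable decoder such that every segment graph on `n ≥ 2` vertices has correct
labels of length at most `65 (t + 1) log n`, where `t` is such that for some proper colouring the
neighbours of every vertex have at most `t` colours (so `t + 1` may be taken to be the local
chromatic number, which is at most the chromatic number).  In particular, for every `k` the
`k`-colourable segment graphs have an adjacency labelling scheme of size `O(log n)`; for `k = 2`
these are the bipartite segment graphs, which include all grid intersection graphs and all complete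
bipartite graphs, so their degeneracy is unbounded.

Idea: pairwise disjoint segments can be ranked compatibly with the order of heights over every
point of the horizontal axis (after a shear).  So the position of an endpoint relative to all
segments of one colour above its abscissa is one number, and two segments meet if and only if their
order at the left end of the common part of their projections is not the same as at the right end.
-/

open UDisk

/-- **Segment graphs with a proper colouring in which every vertex sees few colours.** -/
theorem Pool.Agent.Results.MP_c7897a_lc.LocalColouring.result :
    (∃ dec : List Bool → List Bool → Bool, Computable₂ dec ∧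
      ∀ (n t : ℕ) (G : SimpleGraph (Fin n)) (κ : G.Coloring ℕ), 2 ≤ n → SegmentGraphs n G →
        (∀ v, (κ '' G.neighborSet v).ncard ≤ t) →
        ∃ l : Fin n → List Bool, (∀ v, (l v).length ≤ 65 * (t + 1) * Nat.log 2 n) ∧
          Correct dec G l) ∧
    ∀ k : ℕ, Short (fun n G => SegmentGraphs n G ∧ G.Colorable k) := by
  classical
  refine ⟨⟨colD, computable_colD, fun n t G κ hn hG ht => ?_⟩, fun k => ?_⟩
  · exact segment_labels hn G hG (fun v => κ v) (fun u v huv => κ.valid huv) t ht
  · refine short_of colD computable_colD (65 * (k + 1)) (fun n G hn hG => ?_)
    obtain ⟨hseg, ⟨C⟩⟩ := hG
    refine segment_labels hn G hseg (fun v => (C v).val) (fun u v huv hcon => ?_) k (fun v => ?_)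
    · exact C.valid huv (Fin.ext hcon)
    · have hsub : (fun v => (C v).val) '' G.neighborSet v ⊆ (Finset.range k : Set ℕ) := by
        rintro _ ⟨w, _, rfl⟩
        simp
      calc ((fun v => (C v).val) '' G.neighborSet v).ncard
          ≤ (Finset.range k : Set ℕ).ncard := Set.ncard_le_ncard hsub (Finset.finite_toSet _)
        _ = k := by rw [Set.ncard_coe_finset, Finset.card_range]
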