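import Pool.Agent.Helper62.UD.SegOfPH
import Pool.Agent.Helper62.UD.PHOfSeg

/-!
# MP_c7897a_lc: transfer of short labelling schemes between the three classes

An adjacency labelling scheme of size `O(log n)` for disk graphs gives one for unit disk graphs
(a smaller class), and, which is the point, one for unit disk graphs gives one for segment graphs.
Segment graphs have such a scheme if and only if the incidence graphs of points and closed
half-planes have one.  So a positive answer for disks or unit disks gives a positive answer for
segments, and a negative answer for segments, or already for points and half-planes, gives a
negative answer for all three classes.
-/

open UDisk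

/-- **Transfer.**  `Short C` says that the class `C` has a computable decoder and labels of length
`O(log n)`. -/
theorem Pool.Agent.Results.MP_c7897a_lc.Transfer.result :
    (Short DiskGraphs → Short UnitDiskGraphs) ∧
    (Short UnitDiskGraphs → Short SegmentGraphs) ∧
    (Short SegmentGraphs ↔ Short PointHalfPlaneGraphs) :=
  ⟨unit_of_disk, fun h => segment_of_ph (ph_of_unit h), ph_of_segment, segment_of_ph⟩
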