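import Pool.Agent.Helper62.UD.Table

/-!
# MP_c7897a_lc: tables of unit disks have exponential size

Consider adjacency labelling of unit disk graphs in which a label is the name of an entry of a
fixed finite table of points of the plane, and the decoder tests whether the disks of radius one
around the two entries meet.  (If `H` is a unit disk graph containing every unit disk graph on `n`
vertices as an induced subgraph, its centres are such a table.)  The theorem: such a table has at
least `2 ^ (n / 1250)` entries, so the labels have length at least `n / 1250`; this remains true
when the labelling may be wrong on some pairs.

Idea of the proof.  A point which is adjacent to exactly one of two centres `a`, `b` lies on a known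
side of the bisector of `a` and `b`; by a local construction every finite pattern of points and
lines arises in this way.  Such patterns force three points to be a proper triangle, force further
points to be inside it, and force strict comparisons between the three ratios of barycentric
coordinates.  The logarithms of the ratios add up to zero, and a chain of doublings made of
comparisons confines a ratio of differences of such logarithms, formed from six fixed points, to
the interval from `S / 2 ^ m` to `(S + 1) / 2 ^ m`, where `S` is any number below `2 ^ m`, using
`O(m)` points and lines.  Different `S` need different sextuples of table entries.
-/

open UDisk

/-- **Tables of unit disks.**  Let `P` be a table of `N` points of the plane.  Suppose every unit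
disk graph on `n * k` vertices can be labelled by table entries in such a way that for all but
fewer than `k ^ 2` ordered pairs of different vertices, the vertices are adjacent if and only if
the disks of radius one around the two table entries meet.  Then `N` is at least
`2 ^ (n / 1250)`.  (For `k = 1` no errors are allowed.) -/
theorem Pool.Agent.Results.MP_c7897a_lc.UnitDiskTables.result (n k N : ℕ) (hn : 1 ≤ n)
    (P : Fin N → E2)
    (h : ∀ G : SimpleGraph (Fin (n * k)), IsUnitDisk G → ∃ l : Fin (n * k) → Fin N,
      {p : Fin (n * k) × Fin (n * k) | p.1 ≠ p.2 ∧
        ¬ (G.Adj p.1 p.2 ↔ Meet (P (l p.1)) (P (l p.2)))}.ncard < k ^ 2) :
    2 ^ (n / 1250) ≤ N := by
  have := table_bound_approx n k hn P h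
  rwa [Fintype.card_fin] at this
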